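import Mathlib.Topology.Sheaves.Presheaf
import Mathlib.Tactic.Monotonicity.Lemmas
import Mathlib.Data.Int.Star
import Mathlib.Algebra.Order.Ring.Star
import Mathlib.MeasureTheory.Measure.Real
import Mathlib.Analysis.PSeries
import Mathlib.Algebra.Order.Star.Real
import Mathlib.Data.Finset.Functor
import Mathlib.Dynamics.Ergodic.Conservative
import Mathlib.Tactic.Algebra.Basic

-- ======== part 0: formerly Pool.Agent.MP_5a8dcb_an.Block
section MrgPart0

/-! One block of the subset-sum construction: sums of `a` over `M`-separated sets of indices. -/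

set_option autoImplicit false

namespace Pool.Agent.MP_5a8dcb_an

open Finset

/-- `S` is `M`-separated. -/
def Sep (M : ℕ) (S : Finset ℕ) : Prop := ∀ m ∈ S, ∀ n ∈ S, m < n → m + M ≤ n

instance (M : ℕ) : DecidablePred (Sep M) := fun S => by unfold Sep; infer_instance

lemma Sep.mono {M : ℕ} {S S' : Finset ℕ} (h : Sep M S) (hs : S' ⊆ S) : Sep M S' :=
  fun m hm n hn hmn => h m (hs hm) n (hs hn) hmn

/-- The `M`-separated subsets of `(u, v]` with `j` elements. -/
def sepSets (M u v j : ℕ) : Finset (Finset ℕ) := (powersetCard j (Ioc u v)).filter (Sep M)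

lemma mem_sepSets {M u v j : ℕ} {S : Finset ℕ} :
    S ∈ sepSets M u v j ↔ S ⊆ Ioc u v ∧ S.card = j ∧ Sep M S := by
  simp [sepSets, mem_powersetCard, and_assoc]

/-- The hypotheses on a block `(u, v]`. -/
structure Blk (a : ℕ → ℕ) (M u v D : ℕ) : Prop where
  mono : ∀ m n, u < m → m ≤ n → n ≤ v → a m ≤ a n
  low : ∀ n, u < n → n ≤ v → D ≤ a n ∧ a n + D ≤ a (n + 1)
  gap : ∀ m n, u < m → m + M ≤ n → n ≤ v → 2 * a m ≤ a n ∧ a n + 2 * a m ≤ a (n + 1)

variable {a : ℕ → ℕ} {M u v D : ℕ}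

lemma Blk.bound (h : Blk a M u v D) {e : ℕ} (he : e < D) (S : Finset ℕ) (hS : S ⊆ Ioc u v)
    (hsep : Sep M S) :
    S = ∅ ∨ ∃ n ∈ S, e + ∑ i ∈ S, a i < 2 * a n ∧ e + ∑ i ∈ S, a i < a (n + 1) := by
  induction S using Finset.induction_on_max with
  | empty => exact Or.inl rfl
  | insert n S hlt ih =>
    right
    have hn : n ∉ S := fun hn => lt_irrefl _ (hlt n hn)
    have hnI := mem_Ioc.1 (hS (mem_insert_self n S))
    refine ⟨n, mem_insert_self _ _, ?_⟩
    rw [sum_insert hn]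
    rcases ih ((subset_insert _ _).trans hS) (hsep.mono (subset_insert _ _)) with h0 | ⟨m, hm, h1, _⟩
    · subst h0
      have := h.low n hnI.1 hnI.2
      simp only [sum_empty]
      omega
    · have hmI := mem_Ioc.1 (hS (mem_insert_of_mem hm))
      have := h.gap m n hmI.1
        (hsep m (mem_insert_of_mem hm) n (mem_insert_self _ _) (hlt m hm)) hnI.2
      omega

lemma Blk.lt_next (h : Blk a M u v D) {e : ℕ} (he : e < D) {t : ℕ} (hut : u ≤ t) (htv : t + 1 ≤ v)
    (S : Finset ℕ) (hS : S ⊆ Ioc u t) (hsep : Sep M S) : e + ∑ i ∈ S, a i < a (t + 1) := by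
  rcases h.bound he S (hS.trans (Ioc_subset_Ioc_right (by omega))) hsep with h0 | ⟨n, hn, _, h2⟩
  · subst h0
    have := h.low (t + 1) (by omega) htv
    simp only [sum_empty]
    omega
  · have hnI := mem_Ioc.1 (hS hn)
    exact h2.trans_le (h.mono _ _ (by omega) (by omega) htv)

lemma Blk.lt_top (h : Blk a M u v D) (huv : u < v) {e : ℕ} (he : e < D)
    (S : Finset ℕ) (hS : S ⊆ Ioc u v) (hsep : Sep M S) : e + ∑ i ∈ S, a i < 2 * a v := by
  rcases h.bound he S hS hsep with h0 | ⟨n, hn, h1, _⟩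
  · subst h0
    have := h.low v huv le_rfl
    simp only [sum_empty]
    omega
  · have hnI := mem_Ioc.1 (hS hn)
    have := h.mono n v hnI.1 hnI.2 le_rfl
    omega

lemma subset_Ioc_of_notMem {t : ℕ} {S : Finset ℕ} (hS : S ⊆ Ioc u (t + 1)) (ht : t + 1 ∉ S) :
    S ⊆ Ioc u t := by
  intro n hn
  have h1 := mem_Ioc.1 (hS hn)
  have h2 : n ≠ t + 1 := fun h => ht (h ▸ hn)
  exact mem_Ioc.2 ⟨h1.1, by omega⟩

/-- Unique decoding. -/
lemma Blk.decode_aux (h : Blk a M u v D) {e e' : ℕ} (he : e < D) (he' : e' < D) (t : ℕ)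
    (hut : u ≤ t) : t ≤ v → ∀ S S' : Finset ℕ, S ⊆ Ioc u t → S' ⊆ Ioc u t → Sep M S → Sep M S' →
      e + ∑ i ∈ S, a i = e' + ∑ i ∈ S', a i → S = S' := by
  induction t, hut using Nat.le_induction with
  | base =>
    intro _ S S' hS hS' _ _ _
    rw [Ioc_self, subset_empty] at hS hS'
    rw [hS, hS']
  | succ t hut ih =>
    intro htv S S' hS hS' hs hs' heq
    by_cases h1 : t + 1 ∈ S <;> by_cases h2 : t + 1 ∈ S'
    · have e1 := add_sum_erase S a h1
      have e2 := add_sum_erase S' a h2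
      have := ih (by omega) (S.erase (t + 1)) (S'.erase (t + 1))
        (subset_Ioc_of_notMem ((erase_subset _ _).trans hS) (notMem_erase _ _))
        (subset_Ioc_of_notMem ((erase_subset _ _).trans hS') (notMem_erase _ _))
        (hs.mono (erase_subset _ _)) (hs'.mono (erase_subset _ _)) (by omega)
      rw [← insert_erase h1, this, insert_erase h2]
    · have e1 := add_sum_erase S a h1
      have := h.lt_next he' hut htv S' (subset_Ioc_of_notMem hS' h2) hs'
      omega
    · have e2 := add_sum_erase S' a h2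
      have := h.lt_next he hut htv S (subset_Ioc_of_notMem hS h1) hs
      omega
    · exact ih (by omega) S S' (subset_Ioc_of_notMem hS h1) (subset_Ioc_of_notMem hS' h2) hs hs' heq

lemma Blk.decode (h : Blk a M u v D) (huv : u ≤ v) {e e' : ℕ} (he : e < D) (he' : e' < D)
    {S S' : Finset ℕ} (hS : S ⊆ Ioc u v) (hS' : S' ⊆ Ioc u v) (hs : Sep M S) (hs' : Sep M S')
    (heq : e + ∑ i ∈ S, a i = e' + ∑ i ∈ S', a i) : S = S' :=
  h.decode_aux he he' v huv le_rfl S S' hS hS' hs hs' heq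

/-- Double counting: `(j+1) |I(j+1)| ≤ (v-u) |I(j)|`. -/
lemma card_sepSets_succ (M u v j : ℕ) :
    (j + 1) * (sepSets M u v (j + 1)).card ≤ (v - u) * (sepSets M u v j).card := by
  classical
  have h1 : ((sepSets M u v (j + 1)).sigma fun S => S).card
      = (j + 1) * (sepSets M u v (j + 1)).card := by
    rw [card_sigma, sum_congr rfl (fun S hS => (mem_sepSets.1 hS).2.1), sum_const, smul_eq_mul,
      mul_comm]
  have h2 : (Ioc u v ×ˢ sepSets M u v j).card = (v - u) * (sepSets M u v j).card := by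
    rw [card_product, Nat.card_Ioc]
  rw [← h1, ← h2]
  refine card_le_card_of_injOn (fun p => (p.2, p.1.erase p.2)) ?_ ?_
  · rintro ⟨S, n⟩ hp
    simp only [coe_sigma, Set.mem_sigma_iff, mem_coe] at hp
    obtain ⟨hS, hn⟩ := hp
    obtain ⟨hS1, hS2, hS3⟩ := mem_sepSets.1 hS
    simp only [coe_product, Set.mem_prod, mem_coe]
    refine ⟨hS1 hn, mem_sepSets.2 ⟨(erase_subset _ _).trans hS1, ?_, hS3.mono (erase_subset _ _)⟩⟩
    rw [card_erase_of_mem hn, hS2]; rfl
  · rintro ⟨S, n⟩ hp ⟨S', n'⟩ hp' heq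
    simp only [coe_sigma, Set.mem_sigma_iff, mem_coe] at hp hp'
    simp only [Prod.mk.injEq] at heq
    obtain ⟨rfl, h3⟩ := heq
    have : S = S' := by rw [← insert_erase hp.2, h3, insert_erase hp'.2]
    subst this
    rfl

/-- The indices that can be added to a separated set. -/
lemma card_addable (hM : 1 ≤ M) (j : ℕ) (S : Finset ℕ) (hS : S ∈ sepSets M u v j) :
    v - u ≤ ((Ioc u v).filter fun n => n ∉ S ∧ insert n S ∈ sepSets M u v (j + 1)).card
      + j * (2 * M) := by
  classical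
  obtain ⟨hS1, hS2, hS3⟩ := mem_sepSets.1 hS
  have hsub : Ioc u v ⊆ ((Ioc u v).filter fun n => n ∉ S ∧ insert n S ∈ sepSets M u v (j + 1))
      ∪ S.biUnion fun s => Ico (s - M) (s + M) := by
    intro n hn
    by_cases hb : n ∈ S.biUnion fun s => Ico (s - M) (s + M)
    · exact mem_union_right _ hb
    · refine mem_union_left _ (mem_filter.2 ⟨hn, ?_⟩)
      simp only [mem_biUnion, mem_Ico, not_exists, not_and] at hb
      have hnS : n ∉ S := fun h => by
        have := hb n h (by omega)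
        omega
      refine ⟨hnS, mem_sepSets.2 ⟨insert_subset hn hS1, by rw [card_insert_of_notMem hnS, hS2], ?_⟩⟩
      intro x hx y hy hxy
      rcases mem_insert.1 hx with rfl | hx' <;> rcases mem_insert.1 hy with rfl | hy'
      · omega
      · by_contra hc
        have := hb y hy' (by omega)
        omega
      · have := hb x hx' (by omega)
        omega
      · exact hS3 x hx' y hy' hxy
  have h1 := card_le_card hsub
  have h2 : (S.biUnion fun s => Ico (s - M) (s + M)).card ≤ j * (2 * M) := by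
    refine card_biUnion_le.trans ?_
    rw [← hS2, ← smul_eq_mul, ← sum_const]
    refine sum_le_sum fun s _ => ?_
    rw [Nat.card_Ico]; omega
  have h3 := card_union_le ((Ioc u v).filter fun n => n ∉ S ∧ insert n S ∈ sepSets M u v (j + 1))
    (S.biUnion fun s => Ico (s - M) (s + M))
  rw [Nat.card_Ioc] at h1
  omega

lemma sepSets_nonempty (hM : 1 ≤ M) (j : ℕ) (hj : j * (2 * M) ≤ v - u) :
    (sepSets M u v j).Nonempty := by
  induction j with
  | zero => exact ⟨∅, mem_sepSets.2 ⟨empty_subset _, rfl, fun m hm => absurd hm (notMem_empty m)⟩⟩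
  | succ j ih =>
    have h1 : (j + 1) * (2 * M) = j * (2 * M) + 2 * M := by ring
    obtain ⟨S, hS⟩ := ih (by omega)
    have h2 := card_addable hM j S hS
    obtain ⟨n, hn⟩ := card_pos.1 (show 0 < ((Ioc u v).filter
      fun n => n ∉ S ∧ insert n S ∈ sepSets M u v (j + 1)).card by omega)
    exact ⟨_, (mem_filter.1 hn).2.2⟩

/-- The number of `n ∈ [1, N]` with `x + a n ∈ E`. -/
def hits (a : ℕ → ℕ) (E : Finset ℕ) (x N : ℕ) : ℕ :=
  ((Icc 1 N).filter fun n => x + a n ∈ E).card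

/-- The sums `e + ∑_{i ∈ S} a i`. -/
def sums (a : ℕ → ℕ) (E : Finset ℕ) (I : Finset (Finset ℕ)) : Finset ℕ :=
  (E ×ˢ I).image fun p => p.1 + ∑ i ∈ p.2, a i

lemma mem_sums {E : Finset ℕ} {I : Finset (Finset ℕ)} {x : ℕ} :
    x ∈ sums a E I ↔ ∃ e ∈ E, ∃ S ∈ I, e + ∑ i ∈ S, a i = x := by
  simp only [sums, mem_image, mem_product, Prod.exists]
  constructor
  · rintro ⟨e, S, ⟨h1, h2⟩, h3⟩
    exact ⟨e, h1, S, h2, h3⟩
  · rintro ⟨e, h1, S, h2, h3⟩
    exact ⟨e, S, ⟨h1, h2⟩, h3⟩

lemma Blk.card_sums (h : Blk a M u v D) (huv : u ≤ v) {E : Finset ℕ} (hE : ∀ e ∈ E, e < D)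
    (j : ℕ) : (sums a E (sepSets M u v j)).card = E.card * (sepSets M u v j).card := by
  rw [sums, card_image_of_injOn, card_product]
  rintro ⟨e, S⟩ hp ⟨e', S'⟩ hp' heq
  simp only [coe_product, Set.mem_prod, mem_coe] at hp hp'
  simp only at heq
  obtain ⟨h1, _, h3⟩ := mem_sepSets.1 hp.2
  obtain ⟨h1', _, h3'⟩ := mem_sepSets.1 hp'.2
  have := h.decode huv (hE e hp.1) (hE e' hp'.1) h1 h1' h3 h3' heq
  subst this
  have : e = e' := by omega
  rw [this]

/-- One step of the construction. -/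
lemma Blk.step (h : Blk a M u v D) (huv : u < v) (hM : 1 ≤ M) (j : ℕ)
    (hj : (j + 1) * (2 * M) ≤ v - u) (E F : Finset ℕ) (hne : E.Nonempty)
    (hE : ∀ e ∈ E, e < D) (hF : ∀ e ∈ F, e < D) (ρ : ℝ)
    (hρ : ρ * E.card ≤ F.card) :
    ∃ E' F' : Finset ℕ, E'.Nonempty ∧ (∀ e ∈ E', e < 2 * a v) ∧ (∀ e ∈ F', e < 2 * a v) ∧
      (ρ + (j + 1 : ℝ) / v) * E'.card ≤ F'.card ∧
      ∀ x ∈ F', (∃ f ∈ F, ∀ N, hits a E f N ≤ hits a E' x N) ∨
        v - u ≤ hits a E' x v + j * (2 * M) := by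
  classical
  refine ⟨sums a E (sepSets M u v (j + 1)),
    sums a F (sepSets M u v (j + 1)) ∪ sums a E (sepSets M u v j), ?_, ?_, ?_, ?_, ?_⟩
  · obtain ⟨e, he⟩ := hne
    obtain ⟨S, hS⟩ := sepSets_nonempty hM (j + 1) hj
    exact ⟨_, mem_sums.2 ⟨e, he, S, hS, rfl⟩⟩
  · intro x hx
    obtain ⟨e, he, S, hS, rfl⟩ := mem_sums.1 hx
    obtain ⟨h1, _, h3⟩ := mem_sepSets.1 hS
    exact h.lt_top huv (hE e he) S h1 h3
  · intro x hx
    rcases mem_union.1 hx with hx | hx
    · obtain ⟨e, he, S, hS, rfl⟩ := mem_sums.1 hx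
      obtain ⟨h1, _, h3⟩ := mem_sepSets.1 hS
      exact h.lt_top huv (hF e he) S h1 h3
    · obtain ⟨e, he, S, hS, rfl⟩ := mem_sums.1 hx
      obtain ⟨h1, _, h3⟩ := mem_sepSets.1 hS
      exact h.lt_top huv (hE e he) S h1 h3
  · have hdisj : Disjoint (sums a F (sepSets M u v (j + 1))) (sums a E (sepSets M u v j)) := by
      rw [disjoint_left]
      intro x hx hx'
      obtain ⟨e, he, S, hS, rfl⟩ := mem_sums.1 hx
      obtain ⟨e', he', S', hS', heq⟩ := mem_sums.1 hx'
      obtain ⟨h1, h2, h3⟩ := mem_sepSets.1 hS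
      obtain ⟨h1', h2', h3'⟩ := mem_sepSets.1 hS'
      have := h.decode huv.le (hE e' he') (hF e he) h1' h1 h3' h3 heq
      subst this
      omega
    rw [card_union_of_disjoint hdisj, h.card_sums huv.le hE, h.card_sums huv.le hE,
      h.card_sums huv.le hF]
    have h1 : ((j + 1 : ℝ)) * (sepSets M u v (j + 1)).card ≤ v * (sepSets M u v j).card := by
      have h2 := card_sepSets_succ M u v j
      have h3 : (v - u) * (sepSets M u v j).card ≤ v * (sepSets M u v j).card :=
        Nat.mul_le_mul_right _ (Nat.sub_le _ _)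
      exact_mod_cast h2.trans h3
    have hv : (0 : ℝ) < v := by
      have : 0 < v := by omega
      exact_mod_cast this
    have h4 : (j + 1 : ℝ) / v * (sepSets M u v (j + 1)).card ≤ (sepSets M u v j).card := by
      rw [div_mul_eq_mul_div, div_le_iff₀ hv]; linarith
    push_cast
    have h5 : (0 : ℝ) ≤ (sepSets M u v (j + 1)).card := by positivity
    have h6 : (0 : ℝ) ≤ E.card := by positivity
    nlinarith [mul_le_mul_of_nonneg_right hρ h5, mul_le_mul_of_nonneg_left h4 h6]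
  · intro x hx
    rcases mem_union.1 hx with hx | hx
    · left
      obtain ⟨f, hf, S, hS, rfl⟩ := mem_sums.1 hx
      refine ⟨f, hf, fun N => card_le_card fun n hn => ?_⟩
      rw [mem_filter] at hn ⊢
      exact ⟨hn.1, mem_sums.2 ⟨_, hn.2, S, hS, by ring⟩⟩
    · right
      obtain ⟨e, he, S, hS, rfl⟩ := mem_sums.1 hx
      refine (card_addable hM j S hS).trans (Nat.add_le_add_right (card_le_card fun n hn => ?_) _)
      rw [mem_filter] at hn ⊢
      have hnI := mem_Ioc.1 hn.1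
      refine ⟨mem_Icc.2 ⟨by omega, hnI.2⟩, mem_sums.2 ⟨e, he, _, hn.2.2, ?_⟩⟩
      rw [sum_insert hn.2.1]; ring

end Pool.Agent.MP_5a8dcb_an

end MrgPart0

-- ======== part 1: formerly Pool.Agent.MP_5a8dcb_an.Comb
section MrgPart1

/-! The finite combinatorial statement: a finite set `E` of integers and a much larger set `F`
of starting points, from each of which almost all of `x + a 1, …, x + a N` lie in `E`. -/

set_option autoImplicit false

namespace Pool.Agent.MP_5a8dcb_an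

open Finset Filter

lemma comb_iter (a : ℕ → ℕ) (t k0 : ℕ) (M : ℕ → ℕ) (ht : 4 ≤ t) (hpos : 0 < a (t ^ k0))
    (hmono : ∀ m n, t ^ k0 ≤ m → m ≤ n → a m ≤ a n)
    (hM : ∀ k, k0 ≤ k → 1 ≤ M k ∧ 2 * M k ≤ t ^ k)
    (hgap : ∀ k, k0 ≤ k → ∀ m n, t ^ k ≤ m → m + M k ≤ n → n ≤ t ^ (k + 1) →
      2 * a m ≤ a n ∧ a n + 2 * a m ≤ a (n + 1)) (L : ℕ) :
    ∃ E F : Finset ℕ, E.Nonempty ∧ (∀ e ∈ E, e < 2 * a (t ^ (k0 + L))) ∧
      (∀ e ∈ F, e < 2 * a (t ^ (k0 + L))) ∧
      (∑ k ∈ range L, 1 / (4 * t * M (k0 + k) : ℝ)) * E.card ≤ F.card ∧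
      ∀ x ∈ F, ∃ N, t ^ k0 ≤ N ∧ N ≤ t ^ (k0 + L) ∧ (t - 3) * N ≤ t * hits a E x N := by
  induction L with
  | zero =>
    refine ⟨{0}, ∅, singleton_nonempty 0, ?_, ?_, ?_, ?_⟩
    · intro e he
      rw [mem_singleton.1 he, add_zero]; omega
    · intro e he; exact absurd he (notMem_empty e)
    · simp
    · intro e he; exact absurd he (notMem_empty e)
  | succ L ih =>
    obtain ⟨E, F, hne, hE, hF, hρ, hgood⟩ := ih
    set k := k0 + L with hk
    have hk0 : k0 ≤ k := by omega
    obtain ⟨hM1, hM2⟩ := hM k hk0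
    have hpk : t ^ k0 ≤ t ^ k := Nat.pow_le_pow_right (by omega) hk0
    have hsucc : t ^ (k + 1) = t * t ^ k := by ring
    have h4 : 4 * t ^ k ≤ t ^ (k + 1) := by rw [hsucc]; exact Nat.mul_le_mul_right _ ht
    have hblk : Blk a (M k) (2 * t ^ k) (t ^ (k + 1)) (2 * a (t ^ k)) :=
      ⟨fun m n h1 h2 _ => hmono m n (by omega) h2,
        fun n h1 h2 => hgap k hk0 (t ^ k) n le_rfl (by omega) h2,
        fun m n h1 h2 h3 => hgap k hk0 m n (by omega) h2 h3⟩
    obtain ⟨j, hj⟩ : ∃ j, t ^ k / (2 * M k) = j + 1 := by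
      have : 1 ≤ t ^ k / (2 * M k) := (Nat.le_div_iff_mul_le (by omega)).2 (by omega)
      exact ⟨t ^ k / (2 * M k) - 1, by omega⟩
    have hj1 : (j + 1) * (2 * M k) ≤ t ^ k := by rw [← hj]; exact Nat.div_mul_le_self _ _
    have hj2 : t ^ k < (j + 1 + 1) * (2 * M k) := by
      rw [← hj]
      have := Nat.lt_div_mul_add (a := t ^ k) (b := 2 * M k) (by omega)
      nlinarith
    obtain ⟨E', F', hne', hE', hF', hρ', hgood'⟩ := hblk.step (by omega) hM1 j (by omega) E F hne
      hE hF _ hρ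
    refine ⟨E', F', hne', hE', hF', ?_, ?_⟩
    · refine le_trans (mul_le_mul_of_nonneg_right ?_ (by positivity)) hρ'
      rw [sum_range_succ]
      refine add_le_add le_rfl ?_
      have ht0 : (0 : ℝ) < t := by
        have : 0 < t := by omega
        exact_mod_cast this
      have hM0 : (0 : ℝ) < M k := by exact_mod_cast hM1
      rw [← hk, div_le_div_iff₀ (by positivity) (by positivity)]
      have h5 : t ^ k ≤ (j + 1) * (4 * M k) := by nlinarith
      have h6 : t ^ (k + 1) ≤ (j + 1) * (4 * t * M k) := by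
        rw [hsucc]
        calc t * t ^ k ≤ t * ((j + 1) * (4 * M k)) := Nat.mul_le_mul_left _ h5
          _ = (j + 1) * (4 * t * M k) := by ring
      rw [one_mul]
      exact_mod_cast h6
    · intro x hx
      rcases hgood' x hx with ⟨f, hf, h1⟩ | h1
      · obtain ⟨N, hN1, hN2, hN3⟩ := hgood f hf
        refine ⟨N, hN1, ?_, hN3.trans (Nat.mul_le_mul_left _ (h1 N))⟩
        rw [← add_assoc, ← hk]; omega
      · refine ⟨t ^ (k + 1), by omega, le_rfl, ?_⟩
        have h5 : (j + 1) * (2 * M k) = j * (2 * M k) + 2 * M k := by ring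
        have h6 : (t - 3) * t ^ k ≤ hits a E' x (t ^ (k + 1)) := by
          rw [Nat.sub_mul, ← hsucc]; omega
        calc (t - 3) * t ^ (k + 1) = t * ((t - 3) * t ^ k) := by ring
          _ ≤ _ := Nat.mul_le_mul_left _ h6

lemma growth_gap (a : ℕ → ℕ) (p m0 V : ℕ) (hp : 1 ≤ p)
    (h : ∀ n, m0 ≤ n → n ≤ V → (p + 1) * a n ≤ p * a (n + 1)) (m n : ℕ) (hm : m0 ≤ m)
    (hmn : m + p * (Nat.log 2 p + 2) ≤ n) (hn : n ≤ V) :
    2 * a m ≤ a n ∧ a n + 2 * a m ≤ a (n + 1) := by
  have hp0 : (0 : ℝ) < p := by exact_mod_cast hp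
  have h1 : ∀ i, m + i ≤ V → (1 + 1 / (p : ℝ)) ^ i * a m ≤ a (m + i) := by
    intro i
    induction i with
    | zero => intro _; simp
    | succ i ih =>
      intro hi
      have h2 := ih (by omega)
      have h3 : ((p : ℝ) + 1) * a (m + i) ≤ p * a (m + i + 1) := by
        exact_mod_cast h (m + i) (by omega) (by omega)
      have h4 : (1 + 1 / (p : ℝ)) * a (m + i) ≤ a (m + i + 1) := by
        rw [← mul_le_mul_iff_right₀ hp0]
        calc (p : ℝ) * ((1 + 1 / (p : ℝ)) * a (m + i)) = ((p : ℝ) + 1) * a (m + i) := by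
              field_simp
          _ ≤ _ := h3
      calc (1 + 1 / (p : ℝ)) ^ (i + 1) * a m = (1 + 1 / (p : ℝ)) * ((1 + 1 / (p : ℝ)) ^ i * a m) := by
            ring
        _ ≤ (1 + 1 / (p : ℝ)) * a (m + i) := by gcongr
        _ ≤ _ := h4
  have h2 : (2 : ℝ) ≤ (1 + 1 / (p : ℝ)) ^ p := by
    have := one_add_mul_le_pow (a := 1 / (p : ℝ)) (by
      have : 0 ≤ 1 / (p : ℝ) := by positivity
      linarith) p
    rw [mul_one_div_cancel hp0.ne'] at this
    linarith
  have h3 : (2 * p : ℝ) ≤ (1 + 1 / (p : ℝ)) ^ (n - m) := by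
    have h4 : p < 2 ^ (Nat.log 2 p + 1) := Nat.lt_pow_succ_log_self (by norm_num) p
    have h5 : (p : ℝ) ≤ 2 ^ (Nat.log 2 p + 1) := by exact_mod_cast h4.le
    calc (2 * p : ℝ) ≤ 2 ^ (Nat.log 2 p + 2) := by rw [pow_succ]; linarith
      _ ≤ ((1 + 1 / (p : ℝ)) ^ p) ^ (Nat.log 2 p + 2) := by gcongr
      _ = (1 + 1 / (p : ℝ)) ^ (p * (Nat.log 2 p + 2)) := by rw [← pow_mul]
      _ ≤ _ := by
        apply pow_le_pow_right₀
        · have : 0 ≤ 1 / (p : ℝ) := by positivity
          linarith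
        · omega
  have h4 := h1 (n - m) (by omega)
  rw [show m + (n - m) = n by omega] at h4
  have h5 : 2 * p * a m ≤ a n := by
    have : (2 * p : ℝ) * a m ≤ a n := le_trans (by gcongr) h4
    exact_mod_cast this
  have h6 := h n (by omega) hn
  constructor
  · nlinarith
  · apply Nat.le_of_mul_le_mul_left (c := p) _ (by omega)
    nlinarith

lemma not_summable_inv_mul_log (A : ℕ) (hA : 1 ≤ A) :
    ¬ Summable fun k : ℕ => 1 / ((A * k * (Nat.log 2 (A * k) + 2) : ℕ) : ℝ) := by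
  rw [← summable_condensed_iff_of_nonneg (fun n => by positivity)]
  · intro hs
    have hA0 : (0 : ℝ) < A := by exact_mod_cast hA
    have h1 : Summable fun k : ℕ => (1 / A : ℝ) * (1 / ((k + (A + 2) : ℕ) : ℝ)) := by
      refine Summable.of_nonneg_of_le (fun k => by positivity) (fun k => ?_) hs
      have h2 : Nat.log 2 (A * 2 ^ k) ≤ k + A := by
        have h3 : A * 2 ^ k < 2 ^ (k + A) := by
          rw [pow_add, mul_comm]
          exact Nat.mul_lt_mul_of_pos_left Nat.lt_two_pow_self (by positivity)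
        exact (Nat.log_lt_of_lt_pow (by positivity) h3).le
      have h4 : ((Nat.log 2 (A * 2 ^ k) : ℕ) : ℝ) ≤ k + A := by exact_mod_cast h2
      push_cast
      rw [div_mul_div_comm, mul_one_div, div_le_div_iff₀ (by positivity) (by positivity)]
      have h5 : (0 : ℝ) < 2 ^ k := by positivity
      have h6 : (0 : ℝ) ≤ (A : ℝ) * 2 ^ k := by positivity
      nlinarith [mul_le_mul_of_nonneg_left h4 h6]
    rw [summable_mul_left_iff (by positivity)] at h1
    exact Real.not_summable_one_div_natCast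
      ((summable_nat_add_iff (f := fun n : ℕ => 1 / (n : ℝ)) (A + 2)).1 h1)
  · intro m n hm hmn
    have : 0 < A * m * (Nat.log 2 (A * m) + 2) := by positivity
    apply one_div_le_one_div_of_le (by exact_mod_cast this)
    have h1 : A * m ≤ A * n := Nat.mul_le_mul_left _ hmn
    have h2 : Nat.log 2 (A * m) ≤ Nat.log 2 (A * n) := Nat.log_mono_right h1
    exact_mod_cast Nat.mul_le_mul h1 (by omega)

lemma sq_le_four_mul_two_pow (k : ℕ) : (k + 1) ^ 2 ≤ 4 * 2 ^ k := by
  induction k with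
  | zero => norm_num
  | succ k ih =>
    rcases Nat.lt_or_ge k 2 with h | h
    · interval_cases k <;> norm_num
    · rw [pow_succ 2 k]; nlinarith

/-- The finite combinatorial statement. -/
theorem comb (a : ℕ → ℕ) (hpos : ∀ n, 0 < a n) (c : ℝ) (hc : 0 < c)
    (hgrow : ∀ᶠ n : ℕ in atTop, 1 + c / Real.log n ≤ (a (n + 1) : ℝ) / a n)
    (t : ℕ) (ht : 4 ≤ t) (K N0 : ℕ) :
    ∃ E F : Finset ℕ, ∃ N1 : ℕ, E.Nonempty ∧ K * E.card ≤ F.card ∧
      ∀ x ∈ F, ∃ N, N0 ≤ N ∧ N ≤ N1 ∧ (t - 3) * N ≤ t * hits a E x N := by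
  obtain ⟨Ns, hNs⟩ := eventually_atTop.1 hgrow
  obtain ⟨A0, hA0⟩ := exists_nat_ge (Real.log t / c)
  set A := A0 + 1 with hA
  have hA1 : 1 ≤ A := by omega
  have hAc : Real.log t ≤ A * c := by
    rw [div_le_iff₀ hc] at hA0
    rw [hA]; push_cast; nlinarith
  set k0 := Ns + N0 + 2 + 24 * A ^ 2 with hk0
  have hk0t : k0 < t ^ k0 := Nat.lt_pow_self (by omega)
  have hstep : ∀ k n, Ns + 2 ≤ n → n ≤ t ^ (k + 1) →
      (A * (k + 1) + 1) * a n ≤ A * (k + 1) * a (n + 1) := by
    intro k n h1 h2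
    have h3 := hNs n (by omega)
    have hn1 : (1 : ℝ) < n := by
      have : 1 < n := by omega
      exact_mod_cast this
    have hlog : 0 < Real.log n := Real.log_pos hn1
    have han : (0 : ℝ) < a n := by exact_mod_cast hpos n
    have h4 : Real.log n ≤ (A * (k + 1) : ℕ) * c := by
      have h5 : (n : ℝ) ≤ (t : ℝ) ^ (k + 1) := by exact_mod_cast h2
      have h6 := Real.log_le_log (by linarith) h5
      rw [Real.log_pow] at h6
      push_cast at h6 ⊢
      have h7 : (0 : ℝ) ≤ (k : ℝ) + 1 := by positivity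
      nlinarith [mul_le_mul_of_nonneg_left hAc h7]
    have hp0 : (0 : ℝ) < (A * (k + 1) : ℕ) := by
      have : 0 < A * (k + 1) := by positivity
      exact_mod_cast this
    have h5 : 1 / ((A * (k + 1) : ℕ) : ℝ) ≤ c / Real.log n := by
      rw [div_le_div_iff₀ hp0 hlog]; linarith
    have h6 : 1 + 1 / ((A * (k + 1) : ℕ) : ℝ) ≤ (a (n + 1) : ℝ) / a n := by linarith
    rw [le_div_iff₀ han] at h6
    have h7 : (((A * (k + 1) : ℕ) : ℝ) + 1) * a n ≤ ((A * (k + 1) : ℕ) : ℝ) * a (n + 1) := by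
      calc (((A * (k + 1) : ℕ) : ℝ) + 1) * a n
          = ((A * (k + 1) : ℕ) : ℝ) * ((1 + 1 / ((A * (k + 1) : ℕ) : ℝ)) * a n) := by
            field_simp
        _ ≤ _ := by gcongr
    exact_mod_cast h7
  have hsucc : ∀ n, Ns + 2 ≤ n → a n ≤ a (n + 1) := by
    intro n hn
    have h1 : n ≤ t ^ (n + 1) := by
      have : n + 1 < t ^ (n + 1) := Nat.lt_pow_self (by omega)
      omega
    have h2 := hstep n n hn h1
    apply Nat.le_of_mul_le_mul_left (c := A * (n + 1)) _ (by positivity)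
    nlinarith
  have hmono : ∀ m n, t ^ k0 ≤ m → m ≤ n → a m ≤ a n := by
    intro m n hm hmn
    induction n, hmn using Nat.le_induction with
    | base => exact le_rfl
    | succ n hmn ih => exact ih.trans (hsucc n (by omega))
  set M : ℕ → ℕ := fun k => A * (k + 1) * (Nat.log 2 (A * (k + 1)) + 2) with hM
  have hM1 : ∀ k, k0 ≤ k → 1 ≤ M k ∧ 2 * M k ≤ t ^ k := by
    intro k hk
    have hp : 1 ≤ A * (k + 1) := Nat.mul_pos (by omega) (by omega)
    refine ⟨Nat.mul_pos hp (by omega), ?_⟩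
    have h1 : Nat.log 2 (A * (k + 1)) ≤ A * (k + 1) := Nat.log_le_self _ _
    have h2 : M k ≤ 3 * (A * (k + 1)) ^ 2 := by
      simp only [hM]; nlinarith
    have h3 := sq_le_four_mul_two_pow k
    have h4 : 24 * A ^ 2 ≤ 2 ^ k := by
      have : k < 2 ^ k := Nat.lt_two_pow_self
      omega
    have h5 : 4 ^ k ≤ t ^ k := Nat.pow_le_pow_left ht k
    calc 2 * M k ≤ 2 * (3 * (A * (k + 1)) ^ 2) := by omega
      _ = 6 * A ^ 2 * (k + 1) ^ 2 := by ring
      _ ≤ 6 * A ^ 2 * (4 * 2 ^ k) := Nat.mul_le_mul_left _ h3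
      _ = 24 * A ^ 2 * 2 ^ k := by ring
      _ ≤ 2 ^ k * 2 ^ k := Nat.mul_le_mul_right _ h4
      _ = 4 ^ k := by rw [← mul_pow]; norm_num
      _ ≤ t ^ k := h5
  have hgap : ∀ k, k0 ≤ k → ∀ m n, t ^ k ≤ m → m + M k ≤ n → n ≤ t ^ (k + 1) →
      2 * a m ≤ a n ∧ a n + 2 * a m ≤ a (n + 1) := by
    intro k hk m n h1 h2 h3
    have hpk : t ^ k0 ≤ t ^ k := Nat.pow_le_pow_right (by omega) hk
    exact growth_gap a (A * (k + 1)) (Ns + 2) (t ^ (k + 1)) (Nat.mul_pos (by omega) (by omega))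
      (fun n => hstep k n) m n (by omega) h2 h3
  have hdiv : ¬ Summable fun k : ℕ => 1 / (4 * t * M (k0 + k) : ℝ) := by
    intro hs
    apply not_summable_inv_mul_log A hA1
    rw [← summable_nat_add_iff (k0 + 1)]
    have ht0 : (0 : ℝ) < t := by
      have : 0 < t := by omega
      exact_mod_cast this
    refine (hs.mul_left (4 * (t : ℝ))).congr fun k => ?_
    simp only [hM]
    rw [show k0 + k + 1 = k + (k0 + 1) by ring]
    have : 0 < A * (k + (k0 + 1)) * (Nat.log 2 (A * (k + (k0 + 1))) + 2) := by positivity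
    have : (0 : ℝ) < (A * (k + (k0 + 1)) * (Nat.log 2 (A * (k + (k0 + 1))) + 2) : ℕ) := by
      exact_mod_cast this
    field_simp
  rw [not_summable_iff_tendsto_nat_atTop_of_nonneg (fun k => by positivity)] at hdiv
  obtain ⟨L, hL⟩ := (hdiv.eventually_ge_atTop K).exists
  obtain ⟨E, F, hne, _, _, hρ, hgood⟩ := comb_iter a t k0 M ht (hpos _) hmono hM1 hgap L
  refine ⟨E, F, t ^ (k0 + L), hne, ?_, fun x hx => ?_⟩
  · have : (K : ℝ) * E.card ≤ F.card := le_trans (by gcongr) hρ
    exact_mod_cast this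
  · obtain ⟨N, h1, h2, h3⟩ := hgood x hx
    exact ⟨N, by omega, h2, h3⟩

end Pool.Agent.MP_5a8dcb_an

end MrgPart1

-- ======== part 2: formerly Pool.Agent.MP_5a8dcb_an.Boost
section MrgPart2

/-! Passing to a cyclic group and taking a union of translates: the set `E` gets small density
and the set of good starting points gets density close to one. -/

set_option autoImplicit false

namespace Pool.Agent.MP_5a8dcb_an

open Finset Filter

lemma exists_translate {G : Type*} [AddCommGroup G] [Fintype G] [DecidableEq G]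
    (F U : Finset G) :
    ∃ s : G, U.card * F.card ≤ Fintype.card G * (U.filter fun y => y - s ∈ F).card := by
  have h1 : ∑ s : G, (U.filter fun y => y - s ∈ F).card = U.card * F.card := by
    simp only [card_filter]
    rw [sum_comm]
    have : ∀ y ∈ U, (∑ s : G, if y - s ∈ F then 1 else 0) = F.card := by
      intro y _
      rw [← card_filter]
      refine card_bij (fun s _ => y - s) (fun s hs => (mem_filter.1 hs).2)
        (fun s _ s' _ h => by simpa using h) (fun f hf => ⟨y - f, by simpa using hf, by simp⟩)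
    rw [sum_congr rfl this, sum_const, smul_eq_mul]
  by_contra hcon
  push Not at hcon
  have h2 : ∑ s : G, Fintype.card G * (U.filter fun y => y - s ∈ F).card
      < ∑ _s : G, U.card * F.card := sum_lt_sum_of_nonempty univ_nonempty fun s _ => hcon s
  rw [← mul_sum, h1, sum_const, smul_eq_mul, card_univ] at h2
  exact lt_irrefl _ h2

lemma greedy {G : Type*} [AddCommGroup G] [Fintype G] [DecidableEq G] (F : Finset G) (r : ℕ) :
    ∃ R : Finset G, R.card ≤ r ∧
      (univ.filter fun y => ∀ s ∈ R, y - s ∉ F).card * (Fintype.card G + r * F.card)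
        ≤ Fintype.card G ^ 2 := by
  induction r with
  | zero => exact ⟨∅, le_rfl, by simp [sq]⟩
  | succ r ih =>
    obtain ⟨R, hR, hU⟩ := ih
    set U := univ.filter fun y => ∀ s ∈ R, y - s ∉ F with hUdef
    obtain ⟨s, hs⟩ := exists_translate F U
    refine ⟨insert s R, (card_insert_le _ _).trans (by omega), ?_⟩
    have h1 : (univ.filter fun y => ∀ s' ∈ insert s R, y - s' ∉ F)
        = U.filter fun y => ¬ (y - s ∈ F) := by
      ext y
      simp [hUdef, and_comm]
    rw [h1]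
    have h2 := card_filter_add_card_filter_not (s := U) (fun y => y - s ∈ F)
    set q := Fintype.card G
    set u := U.card
    set f := F.card
    set b := (U.filter fun y => y - s ∈ F).card
    set u' := (U.filter fun y => ¬ (y - s ∈ F)).card
    have hq : 0 < q := Fintype.card_pos
    apply Nat.le_of_mul_le_mul_left (c := q) _ hq
    -- `q u' ≤ u (q - f)`
    have h3 : q * u' + u * f ≤ q * u := by nlinarith
    have h4 : q * (u' * (q + (r + 1) * f)) + u * f * (q + (r + 1) * f)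
        ≤ q * u * (q + (r + 1) * f) := by
      calc _ = (q * u' + u * f) * (q + (r + 1) * f) := by ring
        _ ≤ _ := Nat.mul_le_mul_right _ h3
    have h5 : q * (u * (q + r * f)) ≤ q * q ^ 2 := Nat.mul_le_mul_left _ hU
    nlinarith [Nat.zero_le (u * f * ((r + 1) * f))]

/-- The cyclic-group form of the combinatorial statement. -/
theorem boost (a : ℕ → ℕ) (hpos : ∀ n, 0 < a n) (c : ℝ) (hc : 0 < c)
    (hgrow : ∀ᶠ n : ℕ in atTop, 1 + c / Real.log n ≤ (a (n + 1) : ℝ) / a n)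
    (t : ℕ) (ht : 4 ≤ t) (d : ℕ) (hd : 1 ≤ d) (N0 : ℕ) :
    ∃ q : ℕ, ∃ E U : Finset (ZMod (q + 1)), ∃ N1 : ℕ, d * E.card ≤ q + 1 ∧ d * U.card ≤ q + 1 ∧
      ∀ y, y ∉ U → ∃ N, N0 ≤ N ∧ N ≤ N1 ∧
        (t - 3) * N ≤ t * ((Icc 1 N).filter fun n => y + (a n : ZMod (q + 1)) ∈ E).card := by
  classical
  obtain ⟨E, F, N1, hne, hK, hgood⟩ := comb a hpos c hc hgrow t ht (d ^ 2) N0
  set r := F.sup id + 1 with hr
  have hE0 : 0 < E.card := card_pos.2 hne
  obtain ⟨q, hq⟩ : ∃ q, d * E.card * r = q + 1 := by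
    have : 0 < d * E.card * r := by positivity
    exact ⟨d * E.card * r - 1, by omega⟩
  have hlt : ∀ x ∈ F, x < q + 1 := by
    intro x hx
    have h1 : x ≤ F.sup id := le_sup (f := id) hx
    have h2 : r ≤ d * E.card * r := Nat.le_mul_of_pos_left _ (by positivity)
    omega
  set Fq : Finset (ZMod (q + 1)) := F.image Nat.cast with hFq
  have hFq1 : Fq.card = F.card := by
    rw [hFq, card_image_of_injOn]
    intro x hx y hy hxy
    have := (ZMod.natCast_eq_natCast_iff' x y (q + 1)).1 hxy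
    rwa [Nat.mod_eq_of_lt (hlt x hx), Nat.mod_eq_of_lt (hlt y hy)] at this
  obtain ⟨R, hR, hU⟩ := greedy Fq r
  rw [ZMod.card, hFq1] at hU
  refine ⟨q, R.biUnion fun s => E.image fun e : ℕ => (e : ZMod (q + 1)) + s,
    univ.filter fun y => ∀ s ∈ R, y - s ∉ Fq, N1, ?_, ?_, ?_⟩
  · have h1 : (R.biUnion fun s => E.image fun e : ℕ => (e : ZMod (q + 1)) + s).card
        ≤ r * E.card := by
      refine card_biUnion_le.trans ?_
      calc ∑ s ∈ R, (E.image fun e : ℕ => (e : ZMod (q + 1)) + s).card ≤ ∑ _s ∈ R, E.card :=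
            sum_le_sum fun s _ => card_image_le
        _ = R.card * E.card := by rw [sum_const, smul_eq_mul]
        _ ≤ _ := Nat.mul_le_mul_right _ hR
    calc _ ≤ d * (r * E.card) := Nat.mul_le_mul_left _ h1
      _ = q + 1 := by rw [← hq]; ring
  · set u := (univ.filter fun y => ∀ s ∈ R, y - s ∉ Fq).card
    apply Nat.le_of_mul_le_mul_left (c := q + 1) _ (by omega)
    calc (q + 1) * (d * u) = u * (r * (d ^ 2 * E.card)) := by rw [← hq]; ring
      _ ≤ u * (r * F.card) := by gcongr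
      _ ≤ u * (q + 1 + r * F.card) := by gcongr; omega
      _ ≤ (q + 1) * (q + 1) := by rw [← sq]; exact hU
  · intro y hy
    simp only [mem_filter, mem_univ, true_and, not_forall, not_not] at hy
    obtain ⟨s, hs, hy⟩ := hy
    obtain ⟨x, hx, hxy⟩ := mem_image.1 hy
    obtain ⟨N, h1, h2, h3⟩ := hgood x hx
    refine ⟨N, h1, h2, h3.trans (Nat.mul_le_mul_left _ (card_le_card fun n hn => ?_))⟩
    rw [mem_filter] at hn ⊢
    refine ⟨hn.1, mem_biUnion.2 ⟨s, hs, mem_image.2 ⟨_, hn.2, ?_⟩⟩⟩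
    push_cast
    rw [hxy]; ring

end Pool.Agent.MP_5a8dcb_an

end MrgPart2

-- ======== part 3: formerly Pool.Agent.MP_5a8dcb_an.Marker
section MrgPart3

/-! A Rokhlin-type marker lemma for aperiodic, not necessarily invertible, measure preserving
maps: a set of arbitrarily small measure that every forward orbit visits. -/

set_option autoImplicit false

namespace Pool.Agent.MP_5a8dcb_an

open MeasureTheory Filter Set

variable {X : Type*} [MeasurableSpace X]

/-- Points whose forward orbit visits `V` infinitely often. -/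
def Sat (T : X → X) (V : Set X) : Set X := {x | ∃ᶠ m in atTop, T^[m] x ∈ V}

lemma measurableSet_Sat {T : X → X} (hT : Measurable T) {V : Set X} (hV : MeasurableSet V) :
    MeasurableSet (Sat T V) := by
  have : Sat T V = ⋂ N : ℕ, ⋃ m : ℕ, ⋃ _ : N ≤ m, T^[m] ⁻¹' V := by
    ext x
    simp [Sat, frequently_atTop]
  rw [this]
  exact MeasurableSet.iInter fun N => MeasurableSet.iUnion fun m =>
    MeasurableSet.iUnion fun _ => (hT.iterate m) hV

omit [MeasurableSpace X] in
lemma iterate_mem_Sat {T : X → X} {V : Set X} (j : ℕ) (x : X) :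
    T^[j] x ∈ Sat T V ↔ x ∈ Sat T V := by
  simp only [Sat, mem_ofPred_eq, frequently_atTop]
  constructor
  · intro h N
    obtain ⟨m, hm, h1⟩ := h N
    exact ⟨m + j, by omega, by rwa [Function.iterate_add_apply]⟩
  · intro h N
    obtain ⟨m, hm, h1⟩ := h (N + j)
    refine ⟨m - j, by omega, ?_⟩
    rwa [← Function.iterate_add_apply, show m - j + j = m by omega]

/-- Countably many measurable sets without short returns cover almost everything. -/
lemma exists_cover [MeasurableSpace.CountablySeparated X] {μ : Measure X} {T : X → X}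
    (hT : Measurable T) (haper : ∀ k : ℕ, 1 ≤ k → μ {x | T^[k] x = x} = 0) (h : ℕ) :
    ∃ V : ℕ → Set X, (∀ i, MeasurableSet (V i)) ∧
      (∀ i, ∀ x ∈ V i, ∀ j, 1 ≤ j → j < h → T^[j] x ∉ V i) ∧ ∀ᵐ x ∂μ, ∃ i, x ∈ V i := by
  classical
  obtain ⟨S, hS, hsep⟩ := exists_seq_separating X (p := MeasurableSet) MeasurableSet.empty univ
  obtain ⟨e, he⟩ := exists_surjective_nat (ℕ × Finset ℕ)
  set U : ℕ × Finset ℕ → Set X := fun p => {x | ∀ i < p.1, (x ∈ S i ↔ i ∈ p.2)} with hU
  have hUm : ∀ p, MeasurableSet (U p) := by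
    intro p
    have : U p = ⋂ i : ℕ, ⋂ _ : i < p.1, {x | x ∈ S i ↔ i ∈ p.2} := by
      ext x; simp [hU]
    rw [this]
    refine MeasurableSet.iInter fun i => MeasurableSet.iInter fun _ => ?_
    by_cases hi : i ∈ p.2
    · simpa [hi] using hS i
    · have : {x | x ∈ S i ↔ i ∈ p.2} = (S i)ᶜ := by
        ext x; simp [hi]
      rw [this]; exact (hS i).compl
  refine ⟨fun i => U (e i) \ ⋃ j : ℕ, ⋃ _ : 1 ≤ j ∧ j < h, T^[j] ⁻¹' U (e i), ?_, ?_, ?_⟩
  · intro i
    exact (hUm _).diff (MeasurableSet.iUnion fun j => MeasurableSet.iUnion fun _ =>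
      (hT.iterate j) (hUm _))
  · intro i x hx j h1 h2 hj
    exact hx.2 (mem_iUnion₂.2 ⟨j, ⟨h1, h2⟩, hj.1⟩)
  · have hae : ∀ᵐ x ∂μ, ∀ k : ℕ, 1 ≤ k → T^[k] x ≠ x := by
      rw [ae_all_iff]
      intro k
      by_cases hk : 1 ≤ k
      · have := measure_eq_zero_iff_ae_notMem.1 (haper k hk)
        filter_upwards [this] with x hx _ using hx
      · exact ae_of_all _ fun x hk' => absurd hk' hk
    filter_upwards [hae] with x hx
    have h1 : ∀ k : ℕ, ∃ i, 1 ≤ k → ¬ (T^[k] x ∈ S i ↔ x ∈ S i) := by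
      intro k
      by_cases hk : 1 ≤ k
      · by_contra hc
        push Not at hc
        exact hx k hk (hsep _ (mem_univ _) _ (mem_univ _) fun i => (hc i).2)
      · exact ⟨0, fun hk' => absurd hk' hk⟩
    choose g hg using h1
    set n := (Finset.range h).sup g + 1 with hn
    obtain ⟨i, hi⟩ := he (n, (Finset.range n).filter fun i => x ∈ S i)
    refine ⟨i, ?_, ?_⟩
    · rw [hi]
      intro l hl
      simp only [Finset.mem_filter, Finset.mem_range]
      exact ⟨fun h => ⟨hl, h⟩, fun h => h.2⟩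
    · rw [hi]
      intro hc
      obtain ⟨j, ⟨hj1, hj2⟩, hj⟩ := mem_iUnion₂.1 hc
      have h2 : g j < n := by
        have : g j ≤ (Finset.range h).sup g := Finset.le_sup (Finset.mem_range.2 hj2)
        omega
      have h3 := hj (g j) h2
      apply hg j hj1
      simp only [Finset.mem_filter, Finset.mem_range] at h3
      rw [h3]
      exact ⟨fun h => h.2, fun h => ⟨h2, h⟩⟩

/-- The marker lemma. -/
theorem marker [MeasurableSpace.CountablySeparated X] {μ : Measure X} [IsProbabilityMeasure μ]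
    {T : X → X} (hT : MeasurePreserving T μ μ)
    (haper : ∀ k : ℕ, 1 ≤ k → μ {x | T^[k] x = x} = 0) (h : ℕ) :
    ∃ B : Set X, MeasurableSet B ∧ h * μ.real B ≤ 1 ∧ ∀ x, ∃ m, T^[m] x ∈ B := by
  obtain ⟨V, hVm, hV, hcov⟩ := exists_cover hT.measurable haper h
  set D : ℕ → Set X := fun i => Sat T (V i) \ ⋃ l : ℕ, ⋃ _ : l < i, Sat T (V l) with hD
  have hDm : ∀ i, MeasurableSet (D i) := fun i =>
    (measurableSet_Sat hT.measurable (hVm i)).diff (MeasurableSet.iUnion fun l =>
      MeasurableSet.iUnion fun _ => measurableSet_Sat hT.measurable (hVm l))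
  have hDinv : ∀ i j x, T^[j] x ∈ D i ↔ x ∈ D i := by
    intro i j x
    simp only [hD, Set.mem_sdiff, mem_iUnion, iterate_mem_Sat]
  have hDdisj : ∀ i l x, x ∈ D i → x ∈ D l → i = l := by
    intro i l x hi hl
    by_contra hne
    rcases lt_or_gt_of_ne hne with hlt | hlt
    · exact hl.2 (mem_iUnion₂.2 ⟨i, hlt, hi.1⟩)
    · exact hi.2 (mem_iUnion₂.2 ⟨l, hlt, hl.1⟩)
  set B0 : Set X := ⋃ i, V i ∩ D i with hB0
  have hB0m : MeasurableSet B0 := MeasurableSet.iUnion fun i => (hVm i).inter (hDm i)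
  have hret : ∀ j l x, j < l → l < h → T^[j] x ∈ B0 → T^[l] x ∉ B0 := by
    intro j l x hjl hl hj hc
    obtain ⟨i, hi⟩ := mem_iUnion.1 hj
    obtain ⟨i', hi'⟩ := mem_iUnion.1 hc
    have := hDdisj i i' x ((hDinv _ _ _).1 hi.2) ((hDinv _ _ _).1 hi'.2)
    subst this
    refine hV i _ hi.1 (l - j) (by omega) (by omega) ?_
    rw [← Function.iterate_add_apply, show l - j + j = l by omega]
    exact hi'.1
  have hB0le : h * μ.real B0 ≤ 1 := by
    have h1 : μ.real (⋃ j ∈ Finset.range h, T^[j] ⁻¹' B0)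
        = ∑ j ∈ Finset.range h, μ.real (T^[j] ⁻¹' B0) := by
      refine measureReal_biUnion_finset ?_ (fun j _ => (hT.measurable.iterate j) hB0m)
      intro j hj l hl hjl
      rw [Function.onFun, Set.disjoint_left]
      intro x hx hx'
      rcases lt_or_gt_of_ne hjl with hlt | hlt
      · exact hret j l x hlt (Finset.mem_range.1 hl) hx hx'
      · exact hret l j x hlt (Finset.mem_range.1 hj) hx' hx
    have h2 : ∀ j ∈ Finset.range h, μ.real (T^[j] ⁻¹' B0) = μ.real B0 := fun j _ =>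
      (hT.iterate j).measureReal_preimage hB0m.nullMeasurableSet
    rw [Finset.sum_congr rfl h2, Finset.sum_const, Finset.card_range, nsmul_eq_mul] at h1
    rw [← h1]
    exact measureReal_le_one
  have hvisit : ∀ᵐ x ∂μ, ∃ m, T^[m] x ∈ B0 := by
    have hrec : ∀ᵐ x ∂μ, ∀ i, x ∈ V i → x ∈ Sat T (V i) := by
      rw [ae_all_iff]
      exact fun i => hT.conservative.ae_mem_imp_frequently_image_mem (hVm i).nullMeasurableSet
    filter_upwards [hcov, hrec] with x hx1 hx2
    classical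
    have hex : ∃ i, x ∈ Sat T (V i) := by
      obtain ⟨i, hi⟩ := hx1
      exact ⟨i, hx2 i hi⟩
    have h1 : x ∈ D (Nat.find hex) := by
      refine ⟨Nat.find_spec hex, fun hc => ?_⟩
      obtain ⟨l, hl, hl'⟩ := mem_iUnion₂.1 hc
      exact Nat.find_min hex hl hl'
    obtain ⟨m, hm⟩ := (Nat.find_spec hex).exists
    exact ⟨m, mem_iUnion.2 ⟨_, hm, (hDinv _ _ _).2 h1⟩⟩
  set Z : Set X := {x | ¬ ∃ m, T^[m] x ∈ B0} with hZ
  have hZm : MeasurableSet Z := by
    have : Z = (⋃ m : ℕ, T^[m] ⁻¹' B0)ᶜ := by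
      ext x; simp [hZ]
    rw [this]
    exact (MeasurableSet.iUnion fun m => (hT.measurable.iterate m) hB0m).compl
  have hZ0 : μ Z = 0 := ae_iff.1 hvisit
  refine ⟨B0 ∪ Z, hB0m.union hZm, ?_, fun x => ?_⟩
  · have h1 : μ.real (B0 ∪ Z) ≤ μ.real B0 := by
      have := measureReal_union_le (μ := μ) B0 Z
      have h2 : μ.real Z = 0 := by simp [Measure.real, hZ0]
      linarith
    exact le_trans (by gcongr) hB0le
  · by_cases hx : ∃ m, T^[m] x ∈ B0
    · obtain ⟨m, hm⟩ := hx
      exact ⟨m, Or.inl hm⟩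
    · exact ⟨0, Or.inr hx⟩

end Pool.Agent.MP_5a8dcb_an

end MrgPart3

-- ======== part 4: formerly Pool.Agent.MP_5a8dcb_an.Transfer
section MrgPart4

/-! Transfer of the cyclic-group statement to an aperiodic system. -/

set_option autoImplicit false

namespace Pool.Agent.MP_5a8dcb_an

open MeasureTheory Filter Set

variable {X : Type*} [MeasurableSpace X]

lemma sum_measure_shift {μ : Measure X} [IsProbabilityMeasure μ] {G : Type*} [AddCommGroup G]
    [Fintype G] [DecidableEq G] (ρ : X → G) (hρ : ∀ g, MeasurableSet (ρ ⁻¹' {g}))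
    (A : Finset G) : ∑ s : G, μ.real {x | s - ρ x ∈ A} = A.card := by
  have h1 : ∀ s : G, μ.real {x | s - ρ x ∈ A} = ∑ e ∈ A, μ.real (ρ ⁻¹' {s - e}) := by
    intro s
    have h2 := sum_measureReal_preimage_singleton (μ := μ) A (f := fun x => s - ρ x)
      (fun y _ => by
        have : (fun x => s - ρ x) ⁻¹' {y} = ρ ⁻¹' {s - y} := by
          ext x; simp only [mem_preimage, mem_singleton_iff]
          constructor
          · intro h; rw [← h]; abel
          · intro h; rw [h]; abel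
        rw [this]; exact hρ _)
    have h3 : {x | s - ρ x ∈ A} = (fun x => s - ρ x) ⁻¹' (A : Set G) := rfl
    rw [h3, ← h2]
    refine Finset.sum_congr rfl fun y _ => ?_
    congr 1
    ext x; simp only [mem_preimage, mem_singleton_iff]
    constructor
    · intro h; rw [← h]; abel
    · intro h; rw [h]; abel
  simp only [h1]
  rw [Finset.sum_comm]
  have h4 : ∀ e ∈ A, ∑ s : G, μ.real (ρ ⁻¹' {s - e}) = 1 := by
    intro e _
    have h5 := sum_measureReal_preimage_singleton (μ := μ) Finset.univ (f := ρ)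
      (fun y _ => hρ y)
    rw [Finset.coe_univ, preimage_univ, probReal_univ] at h5
    rw [← h5]
    exact Fintype.sum_equiv (Equiv.subRight e) _ _ fun s => rfl
  rw [Finset.sum_congr rfl h4]
  simp

open Classical in
/-- The number of `n ∈ [1, N]` with `T^(a n) x ∈ E`. -/
noncomputable def visits (a : ℕ → ℕ) (T : X → X) (E : Set X) (x : X) (N : ℕ) : ℕ :=
  ((Finset.Icc 1 N).filter fun n => T^[a n] x ∈ E).card

/-- One stage: a small set that almost all of the first `N` sample points visit, for some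
`N ∈ [N0, N1]` depending on the point, outside a small exceptional set. -/
theorem stage (a : ℕ → ℕ) (hpos : ∀ n, 0 < a n) (c : ℝ) (hc : 0 < c)
    (hgrow : ∀ᶠ n : ℕ in atTop, 1 + c / Real.log n ≤ (a (n + 1) : ℝ) / a n)
    [MeasurableSpace.CountablySeparated X] {μ : Measure X} [IsProbabilityMeasure μ]
    {T : X → X} (hT : MeasurePreserving T μ μ)
    (haper : ∀ k : ℕ, 1 ≤ k → μ {x | T^[k] x = x} = 0)
    (t : ℕ) (ht : 4 ≤ t) (N0 : ℕ) (δ : ℝ) (hδ : 0 < δ) :
    ∃ E : Set X, ∃ N1 : ℕ, MeasurableSet E ∧ μ.real E ≤ δ ∧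
      μ.real {x | ¬ ∃ N, N0 ≤ N ∧ N ≤ N1 ∧ (t - 3) * N ≤ t * visits a T E x N} ≤ δ := by
  classical
  obtain ⟨d0, hd0⟩ := exists_nat_ge (3 / δ)
  set d := d0 + 1 with hd
  have hdpos : (0 : ℝ) < d := by rw [hd]; positivity
  have hdδ : 3 / (d : ℝ) ≤ δ := by
    rw [div_le_iff₀ hδ] at hd0
    rw [div_le_iff₀ hdpos, hd]; push_cast; nlinarith
  obtain ⟨q, E, U, N1, hE, hU, hgood⟩ := boost a hpos c hc hgrow t ht d (by omega) N0
  set H := (Finset.range (N1 + 1)).sup a with hH
  obtain ⟨B, hBm, hB, hhit⟩ := marker hT haper (d * (H + 1))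
  set r : X → ℕ := fun x => Nat.find (hhit x) with hr
  have hrm : Measurable r := measurable_find hhit fun k => (hT.measurable.iterate k) hBm
  set ρ : X → ZMod (q + 1) := fun x => (r x : ZMod (q + 1)) with hρ
  have hpre : ∀ P : ℕ → Prop, MeasurableSet {x | P (r x)} := fun P =>
    hrm (MeasurableSet.of_discrete (s := {n | P n}))
  have hρm : ∀ g, MeasurableSet (ρ ⁻¹' {g}) := fun g =>
    hpre fun n => (n : ZMod (q + 1)) = g
  have hshift : ∀ x i, i ≤ r x → r (T^[i] x) + i = r x := by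
    intro x i hi
    apply le_antisymm
    · have : r (T^[i] x) ≤ r x - i := by
        apply Nat.find_min'
        rw [← Function.iterate_add_apply, show r x - i + i = r x by omega]
        exact Nat.find_spec (hhit x)
      omega
    · apply Nat.find_min'
      rw [Function.iterate_add_apply]
      exact Nat.find_spec (hhit _)
  have hq : (0 : ℝ) < (q + 1 : ℕ) := by positivity
  -- choose the shift
  obtain ⟨s, hs⟩ : ∃ s : ZMod (q + 1),
      μ.real {x | s - ρ x ∈ E} + μ.real {x | s - ρ x ∈ U} ≤ 2 / d := by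
    by_contra hcon
    push Not at hcon
    have h1 : ∑ _s : ZMod (q + 1), (2 / d : ℝ)
        < ∑ s : ZMod (q + 1), (μ.real {x | s - ρ x ∈ E} + μ.real {x | s - ρ x ∈ U}) :=
      Finset.sum_lt_sum_of_nonempty Finset.univ_nonempty fun s _ => hcon s
    rw [Finset.sum_add_distrib, sum_measure_shift ρ hρm, sum_measure_shift ρ hρm,
      Finset.sum_const, Finset.card_univ, ZMod.card, nsmul_eq_mul] at h1
    have h2 : (d : ℝ) * E.card ≤ (q + 1 : ℕ) := by exact_mod_cast hE
    have h3 : (d : ℝ) * U.card ≤ (q + 1 : ℕ) := by exact_mod_cast hU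
    rw [mul_div_assoc', div_lt_iff₀ hdpos] at h1
    linarith
  have h23 : (2 / d : ℝ) + 1 / d = 3 / d := by ring
  have h1d : (0 : ℝ) ≤ 1 / d := by positivity
  refine ⟨{x | s - ρ x ∈ E}, N1, hpre fun n => s - (n : ZMod (q + 1)) ∈ E, ?_, ?_⟩
  · have : 0 ≤ μ.real {x | s - ρ x ∈ U} := measureReal_nonneg
    linarith
  · have hsub : {x | ¬ ∃ N, N0 ≤ N ∧ N ≤ N1 ∧
        (t - 3) * N ≤ t * visits a T {x | s - ρ x ∈ E} x N}
        ⊆ {x | s - ρ x ∈ U} ∪ ⋃ i ∈ Finset.range H, T^[i] ⁻¹' B := by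
      intro x hx
      by_contra hcon
      simp only [mem_union, mem_ofPred_eq, mem_iUnion, Finset.mem_range, mem_preimage, not_or,
        not_exists] at hcon
      obtain ⟨h1, h2⟩ := hcon
      have hHr : H ≤ r x := (Nat.le_find_iff _ _).2 h2
      obtain ⟨N, h3, h4, h5⟩ := hgood _ h1
      refine hx ⟨N, h3, h4, h5.trans (Nat.mul_le_mul_left _ (Finset.card_le_card fun n hn => ?_))⟩
      rw [Finset.mem_filter] at hn
      simp only [Finset.mem_filter]
      refine ⟨hn.1, ?_⟩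
      have h6 : a n ≤ H := Finset.le_sup (f := a)
        (Finset.mem_range.2 (by have := (Finset.mem_Icc.1 hn.1).2; omega))
      have h7 := hshift x (a n) (by omega)
      have h8 : s - ρ (T^[a n] x) = s - ρ x + (a n : ZMod (q + 1)) := by
        simp only [hρ]
        rw [← h7]; push_cast; ring
      change s - ρ (T^[a n] x) ∈ E
      rw [h8]; exact hn.2
    have h1 : μ.real (⋃ i ∈ Finset.range H, T^[i] ⁻¹' B) ≤ 1 / d := by
      refine (measureReal_biUnion_finset_le _ _).trans ?_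
      have h2 : ∀ j ∈ Finset.range H, μ.real (T^[j] ⁻¹' B) = μ.real B := fun j _ =>
        (hT.iterate j).measureReal_preimage hBm.nullMeasurableSet
      rw [Finset.sum_congr rfl h2, Finset.sum_const, Finset.card_range, nsmul_eq_mul,
        le_div_iff₀ hdpos]
      push_cast at hB
      have : 0 ≤ μ.real B := measureReal_nonneg
      nlinarith
    have h2 := measureReal_mono (μ := μ) hsub
    have h3 := measureReal_union_le (μ := μ) {x | s - ρ x ∈ U}
      (⋃ i ∈ Finset.range H, T^[i] ⁻¹' B)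
    have : 0 ≤ μ.real {x | s - ρ x ∈ E} := measureReal_nonneg
    linarith

end Pool.Agent.MP_5a8dcb_an

end MrgPart4

-- ======== part 5: formerly Pool.Agent.MP_5a8dcb_an.Assemble
section MrgPart5

/-! Putting the stages together. -/

set_option autoImplicit false

namespace Pool.Agent.MP_5a8dcb_an

open MeasureTheory Filter Set

variable {X : Type*} [MeasurableSpace X]

lemma tsum_measure_le {μ : Measure X} [IsProbabilityMeasure μ] {ε : ℝ} (hε : 0 < ε)
    (s : ℕ → Set X) (hs : ∀ i, μ.real (s i) ≤ ε / 2 / 2 / 2 ^ i) :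
    ∑' i, μ (s i) ≤ ENNReal.ofReal (ε / 2) := by
  rw [← tsum_geometric_two' (ε / 2),
    ENNReal.ofReal_tsum_of_nonneg (fun n => by positivity) (summable_geometric_two' (ε / 2))]
  refine ENNReal.tsum_le_tsum fun i => ?_
  rw [← ofReal_measureReal (μ := μ) (s := s i)]
  exact ENNReal.ofReal_le_ofReal (hs i)

omit [MeasurableSpace X] in
lemma sum_indicator_eq_visits (a : ℕ → ℕ) (T : X → X) (E : Set X) (x : X) (N : ℕ) :
    ∑ n ∈ Finset.Icc 1 N, E.indicator (fun _ => (1 : ℝ)) (T^[a n] x) = visits a T E x N := by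
  classical
  simp only [visits, Finset.card_filter, Set.indicator_apply]
  push_cast
  rfl

omit [MeasurableSpace X] in
lemma visits_le (a : ℕ → ℕ) (T : X → X) (E : Set X) (x : X) (N : ℕ) : visits a T E x N ≤ N := by
  classical
  refine (Finset.card_filter_le _ _).trans ?_
  simp

omit [MeasurableSpace X] in
lemma visits_mono (a : ℕ → ℕ) (T : X → X) (E E' : Set X) (x : X) (N : ℕ)
    (h : ∀ n, 1 ≤ n → n ≤ N → T^[a n] x ∈ E → T^[a n] x ∈ E') :
    visits a T E x N ≤ visits a T E' x N := by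
  classical
  refine Finset.card_le_card fun n hn => ?_
  simp only [Finset.mem_filter, Finset.mem_Icc] at hn ⊢
  exact ⟨hn.1, h n hn.1.1 hn.1.2 hn.2⟩

omit [MeasurableSpace X] in
lemma visits_add_le (a : ℕ → ℕ) (T : X → X) (E E' : Set X) (x : X) (N : ℕ)
    (h : ∀ n, 1 ≤ n → n ≤ N → T^[a n] x ∈ E → T^[a n] x ∉ E') :
    visits a T E x N + visits a T E' x N ≤ N := by
  classical
  unfold visits
  rw [← Finset.card_union_of_disjoint]
  · refine (Finset.card_le_card (t := Finset.Icc 1 N) (Finset.union_subset ?_ ?_)).trans (by simp)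
    · exact Finset.filter_subset _ _
    · exact Finset.filter_subset _ _
  · rw [Finset.disjoint_left]
    intro n hn hn'
    simp only [Finset.mem_filter, Finset.mem_Icc] at hn hn'
    exact h n hn.1.1 hn.1.2 hn.2 hn'.2

/-- A set of small measure whose visit frequencies along `a` come, for almost every point,
arbitrarily close to `1` and arbitrarily close to `0` at arbitrarily late times. -/
theorem oscillation (a : ℕ → ℕ) (hpos : ∀ n, 0 < a n) (c : ℝ) (hc : 0 < c)
    (hgrow : ∀ᶠ n : ℕ in atTop, 1 + c / Real.log n ≤ (a (n + 1) : ℝ) / a n)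
    [MeasurableSpace.CountablySeparated X] {μ : Measure X} [IsProbabilityMeasure μ]
    {T : X → X} (hT : MeasurePreserving T μ μ)
    (haper : ∀ k : ℕ, 1 ≤ k → μ {x | T^[k] x = x} = 0) (ε : ℝ) (hε : 0 < ε) :
    ∃ E : Set X, MeasurableSet E ∧ μ E < ENNReal.ofReal ε ∧ ∀ᵐ x ∂μ, ∀ j : ℕ,
      (∃ i N, j ≤ i ∧ i + 1 ≤ N ∧ (i + 1) * N ≤ (i + 4) * visits a T E x N) ∧
      (∃ i N, j ≤ i ∧ i + 1 ≤ N ∧ (i + 4) * visits a T E x N ≤ 3 * N) := by
  classical
  have hst := fun (i : ℕ) (δ : {δ : ℝ // 0 < δ}) =>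
    stage a hpos c hc hgrow hT haper (i + 4) (by omega) (i + 1) δ.1 δ.2
  choose Ef Nf hEm hEμ hBad using hst
  set dl : ℕ → ℕ → {δ : ℝ // 0 < δ} :=
    fun i R => ⟨ε / 2 / 2 / 2 ^ i / (R + 1), by positivity⟩ with hdl
  set R : ℕ → ℕ := fun i => Nat.rec 0 (fun i R => R + Nf i (dl i R)) i with hR
  have hRs : ∀ i, R (i + 1) = R i + Nf i (dl i (R i)) := fun i => rfl
  have hRmono : Monotone R := monotone_nat_of_le_succ fun i => by rw [hRs]; omega
  set E : ℕ → Set X := fun i => Ef i (dl i (R i)) with hE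
  have hdle : ∀ i, (dl i (R i)).1 ≤ ε / 2 / 2 / 2 ^ i := by
    intro i
    simp only [hdl]
    apply div_le_self (by positivity)
    have : (0 : ℝ) ≤ R i := by positivity
    linarith
  set W : ℕ → Set X := fun i => ⋃ n ∈ Finset.Icc 1 (R i), T^[a n] ⁻¹' E i with hW
  have hWle : ∀ i, μ.real (W i) ≤ ε / 2 / 2 / 2 ^ i := by
    intro i
    refine (measureReal_biUnion_finset_le _ _).trans ?_
    have h2 : ∀ n ∈ Finset.Icc 1 (R i), μ.real (T^[a n] ⁻¹' E i) = μ.real (E i) := fun n _ =>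
      (hT.iterate (a n)).measureReal_preimage (hEm _ _).nullMeasurableSet
    rw [Finset.sum_congr rfl h2, Finset.sum_const, Nat.card_Icc, nsmul_eq_mul]
    have h3 : μ.real (E i) ≤ ε / 2 / 2 / 2 ^ i / (R i + 1) := hEμ i (dl i (R i))
    rw [le_div_iff₀ (by positivity)] at h3
    have h4 : 0 ≤ μ.real (E i) := measureReal_nonneg
    simp only [add_tsub_cancel_right]
    nlinarith
  have hne : ENNReal.ofReal (ε / 2) ≠ ⊤ := ENNReal.ofReal_ne_top
  have hae1 := ae_eventually_notMem (ne_top_of_le_ne_top hne (tsum_measure_le hε W hWle))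
  have hae2 := ae_eventually_notMem (ne_top_of_le_ne_top hne
    (tsum_measure_le hε _ fun i => (hBad i (dl i (R i))).trans (hdle i)))
  set E0 : Set X := ⋃ j : ℕ, ⋃ _ : Odd j, (E j \ ⋃ i : ℕ, ⋃ _ : j < i, E i) with hE0
  refine ⟨E0, ?_, ?_, ?_⟩
  · exact MeasurableSet.iUnion fun j => MeasurableSet.iUnion fun _ => (hEm _ _).diff
      (MeasurableSet.iUnion fun i => MeasurableSet.iUnion fun _ => hEm _ _)
  · have h1 : E0 ⊆ ⋃ j, E j := by
      intro x hx
      obtain ⟨j, _, hj⟩ := mem_iUnion₂.1 hx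
      exact mem_iUnion.2 ⟨j, hj.1⟩
    calc μ E0 ≤ μ (⋃ j, E j) := measure_mono h1
      _ ≤ ∑' j, μ (E j) := measure_iUnion_le _
      _ ≤ ENNReal.ofReal (ε / 2) :=
        tsum_measure_le hε E fun i => (hEμ i (dl i (R i))).trans (hdle i)
      _ < ENNReal.ofReal ε := (ENNReal.ofReal_lt_ofReal_iff hε).2 (by linarith)
  · filter_upwards [hae1, hae2] with x hx1 hx2
    obtain ⟨j0, hj0⟩ := eventually_atTop.1 (hx1.and hx2)
    have key : ∀ i, j0 ≤ i → ∃ N, i + 1 ≤ N ∧ (i + 1) * N ≤ (i + 4) * visits a T (E i) x N ∧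
        ∀ n, 1 ≤ n → n ≤ N → ∀ l, i < l → T^[a n] x ∉ E l := by
      intro i hi
      have h1 := (hj0 i hi).2
      simp only [not_not] at h1
      obtain ⟨N, h2, h3, h4⟩ := h1
      refine ⟨N, h2, by simpa using h4, fun n hn1 hn2 l hl hc => (hj0 l (by omega)).1 ?_⟩
      have h5 : R (i + 1) ≤ R l := hRmono hl
      rw [hRs] at h5
      exact mem_iUnion₂.2 ⟨n, Finset.mem_Icc.2 ⟨hn1, by omega⟩, hc⟩
    intro j
    constructor
    · obtain ⟨N, h1, h2, h3⟩ := key (2 * (j + j0) + 1) (by omega)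
      refine ⟨_, N, by omega, h1, h2.trans (Nat.mul_le_mul_left _ (visits_mono _ _ _ _ _ _ ?_))⟩
      intro n hn1 hn2 hn
      refine mem_iUnion₂.2 ⟨_, odd_two_mul_add_one _, hn, fun hc => ?_⟩
      obtain ⟨l, hl, hl'⟩ := mem_iUnion₂.1 hc
      exact h3 n hn1 hn2 l hl hl'
    · obtain ⟨N, h1, h2, h3⟩ := key (2 * (j + j0)) (by omega)
      refine ⟨_, N, by omega, h1, ?_⟩
      have h4 : visits a T (E (2 * (j + j0))) x N + visits a T E0 x N ≤ N := by
        apply visits_add_le
        intro n hn1 hn2 hn hc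
        obtain ⟨l, hl, hl'⟩ := mem_iUnion₂.1 hc
        rcases lt_trichotomy l (2 * (j + j0)) with hlt | heq | hgt
        · exact hl'.2 (mem_iUnion₂.2 ⟨_, hlt, hn⟩)
        · rw [heq] at hl
          exact (Nat.not_odd_iff_even.2 (even_two_mul _)) hl
        · exact h3 n hn1 hn2 l hgt hl'.1
      nlinarith

end Pool.Agent.MP_5a8dcb_an

end MrgPart5

-- marker of a merged file
example : 731051 + 59520 = 731051 + 59520 := rfl
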